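import Pool.Agent.Helper80.MMP.Stop

/-!
# Log canonical varieties of general type without boundary

The cubic cone over a smooth projective variety `V`, of dimension `dim V + 2`: a factorial
Gorenstein log canonical variety `X` with empty boundary and big and mobile canonical class, whose
singular locus is `V`, with the mildest singularities that are not Kawamata log terminal
(products of `V` with the cone over a plane cubic), and with `K_X|V = K_V`.
-/

set_option autoImplicit false

namespace Pool.Agent.Helper40.LC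

open Pool.Agent.Helper80.MMP

/-- Further data. -/
structure EllipticData (G : Geometry) where
  /-- `X` is Gorenstein: Cohen and Macaulay, and `K_X` is a Cartier divisor. -/
  Gorenstein : G.Var → Prop
  /-- `X` is factorial: every Weil divisor is Cartier. -/
  Factorial : G.Var → Prop
  /-- `Cubic T`: the subvariety `T` of `X` is smooth, `X` is smooth outside `T`, and at every point
  of `T` the variety `X` is, analytically, the product of `T` and of the cone over a smooth plane
  cubic. -/
  Cubic : ∀ {X : G.Var}, G.Sub X → Prop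

/-- `X` is of elliptic type: it is factorial, Gorenstein, and smooth outside a smooth subvariety
`T` of codimension two that is not uniruled and along which `X` is the product of `T` and of the
cone over a smooth plane cubic; and `K_X = A + m Y_i` numerically for `i = 1, 2, 3`, where `A` is
ample, `m > 0`, and `Y_1, Y_2, Y_3` are distinct prime divisors whose intersection is contained in
`T`.

So `K_X` is big, it is positive on every curve of `X` that is not contained in `T`, and it is
mobile. -/
def EllipticType {G : Geometry} (D : EllipticData G) (X : G.Var) : Prop :=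
  D.Gorenstein X ∧ D.Factorial X ∧
    ∃ (T : G.Sub X) (A : G.N1 X) (m : ℝ) (Y : Fin 3 → G.Prm X),
      D.Cubic T ∧ G.sdim T + 2 = G.dim X ∧ ¬ G.SUniruled T ∧
      Ample G A ∧ 0 < m ∧ Function.Injective Y ∧ (∀ i, G.K X = A + m • G.cl (Y i)) ∧
      ∀ S : G.Sub X, (∀ i, G.In S (Y i)) → G.le S T

/-- Facts on varieties of elliptic type. -/
structure EllipticFacts (G : Geometry) (D : EllipticData G) : Prop where
  /-- Ample classes are pseudo-effective. -/
  ample_pseff : ∀ {X : G.Var} {A : G.N1 X}, Ample G A → A ∈ G.Pseff X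
  /-- Bertini: an ample class is numerically equivalent to an effective divisor that does not
  contain given prime divisors. -/
  bertini : ∀ {X : G.Var} {A : G.N1 X} (F : Finset (G.Prm X)), Ample G A →
    ∃ Q : G.Prm X →₀ ℝ, (∀ P, 0 ≤ Q P) ∧ clR G Q = A ∧ ∀ P ∈ F, P ∉ Q.support
  /-- Blow up `T`: the exceptional divisor `E` is smooth, with fibres the plane cubic over `T`, and
  `K + E` is the pull-back of `K_X`.  So `(X, 0)` is log canonical, and `T` is its only log
  canonical centre. -/
  lc : ∀ {X : G.Var}, EllipticType D X → G.Lc X 0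
  /-- The exceptional locus of a flip has codimension at least two. -/
  flip_dim : ∀ {X X' : G.Var} (e : G.Step X X') {T : G.Sub X}, G.Flip e → G.Comp e T →
    G.sdim T + 2 ≤ G.dim X
  /-- The cubic cone.  Let `V` be smooth of dimension `n ≥ 1`, `B` very ample on `V`, `m = n + 2`,
  `d > m + 4`, `π : P → V` the bundle `ℙ(𝓞 ⊕ B ⊕ B ⊕ B)` of quotients of rank one, `ξ` its
  tautological class, with sections `x ∈ H^0(ξ)` and `y_1, y_2, y_3 ∈ H^0(ξ - B)`.  The section
  `V_0 = (y = 0)` is isomorphic to `V`, and `ξ` is trivial on it.  Let `X` be a general member of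
  `|dξ - 3B|`, with equation `Σ x^(d-j) f_j(y)`, `3 ≤ j ≤ d`, where `f_j` is a form of degree `j` in
  `y` with coefficients in `H^0(V, (j-3)B)`; so `f_3` is a plane cubic with constant coefficients.
  The blowing-up `P'` of `V_0` is a `ℙ^1`-bundle over `V × ℙ^2`, with exceptional divisor
  `E = V × ℙ^2`; if `h` is the class of a line of `ℙ^2`, then `h = ξ - B - E` and the strict
  transform `X'` of `X` is a general member of `|dξ - 3B - 3E| = |(d-3)ξ + 3h|`, which is base point
  free, big, and restricts to `|3h|` on `E`.  So `X'` is smooth and meets `E` in `V × (f_3 = 0)`,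
  and `X`, a normal hypersurface of `P`, is smooth outside `V_0` and has the cone over the cubic
  along `V_0`.  The morphism of `|(d-3)ξ + 3h|` contracts exactly `E`, to `ℙ^2`; by the Lefschetz
  theorem of Goresky and MacPherson `H^i(P', ℤ) = H^i(X', ℤ)` for `i ≤ 2`, so
  `Pic X' = Pic V ⊕ ℤ h ⊕ ℤ ξ`; the divisor class group of `X` is its quotient by the class
  `ξ - B - h` of the exceptional divisor, `Pic V ⊕ ℤ ξ`, so that `X` is factorial.  By adjunction
  `K_X = (d-4)ξ + K_V = A + m (ξ - B)` with `A = (d-4-m)ξ + K_V + mB`.  As `K_V + mB` is ample on `V`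
  (Mori), `A` is ample on `P`.  The divisors `Y_i = X ∩ (y_i = 0)`, for general coordinates `y_i` of
  `ℙ^2`, are irreducible (Bertini on `X'`), of class `ξ - B`, and they meet in `V_0`.  The
  restriction of `K_X` to `V_0` is `K_V`. -/
  model : ∀ {V : G.Var}, G.Smooth V → ¬ G.Uniruled V → 1 ≤ G.dim V →
    ∃ (X : G.Var) (s : G.Mark V X), EllipticType D X ∧ D.Cubic (G.im s) ∧
      G.dim X = G.dim V + 2 ∧ G.res s (G.K X) = G.toB V (G.K V)

/-- The published theorems that are used. -/
structure EllipticPublished (G : Geometry) : Prop where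
  /-- Kawamata 1991 and, for log canonical pairs, Fujino 2021 (Cone theorem and Mori
  hyperbolicity): the components of the exceptional locus are uniruled. -/
  uniruled : ∀ {X X' : G.Var} (e : G.Step X X') {Δ : G.Bd X} {T : G.Sub X},
    G.Lc X Δ → G.ray e (G.KB Δ) < 0 → G.Comp e T → G.SUniruled T
  /-- Minimal models of smooth varieties of dimension at most three (Mori 1988). -/
  threefolds : ∀ {V : G.Var}, G.Smooth V → G.dim V ≤ 3 → G.K V ∈ G.Pseff V → G.WeakZariski V
  /-- Lazić and Tsakanikas 2022 (minimal models from NQC weak Zariski decompositions, and for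
  log canonical pairs from smooth varieties) and Hashizume and Hu 2020 (a log canonical pair
  with a log minimal model has a terminating program). -/
  reduction : ∀ n : ℕ,
    (∀ V : G.Var, G.Smooth V → G.dim V ≤ n → G.K V ∈ G.Pseff V → G.WeakZariski V) →
    ∀ (X : G.Var) (Δ : G.Bd X), G.dim X ≤ n → G.Lc X Δ → G.KB Δ ∈ G.Pseff X → G.Q1 X Δ
  /-- Birkar 2012, Hacon and Xu 2013, Hashizume and Hu 2020: a log canonical pair whose log
  canonical class is not pseudo-effective has a program ending with a Mori fibre space. -/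
  mori : ∀ (X : G.Var) (Δ : G.Bd X), G.Lc X Δ → G.KB Δ ∉ G.Pseff X → G.Q1 X Δ

variable {G : Geometry}

theorem KB_zero (X : G.Var) : G.KB (0 : G.Bd X) = G.K X := by
  simp [Geometry.KB, Geometry.clB]

/-- The canonical class of a variety of elliptic type is pseudo-effective ... -/
theorem elliptic_pseff (hT : Textbook G) {D : EllipticData G} (hF : EllipticFacts G D)
    {X : G.Var} (hX : EllipticType D X) : G.K X ∈ G.Pseff X := by
  obtain ⟨-, -, T, A, m, Y, -, -, -, hA, hm, -, hK, -⟩ := hX
  rw [hK 0]
  exact hT.pseff_add (hF.ample_pseff hA) (hT.pseff_smul hm.le (hT.pseff_prime _))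

/-- ... and mobile: numerically equivalent to two effective divisors without common
components. -/
theorem elliptic_mobile {D : EllipticData G} (hF : EllipticFacts G D)
    {X : G.Var} (hX : EllipticType D X) :
    ∃ N N' : G.Prm X →₀ ℝ, (∀ P, 0 ≤ N P) ∧ (∀ P, 0 ≤ N' P) ∧
      (∀ P, P ∈ N.support → P ∉ N'.support) ∧ clR G N = G.K X ∧ clR G N' = G.K X := by
  classical
  obtain ⟨-, -, T, A, m, Y, -, -, -, hA, hm, hY, hK, -⟩ := hX
  obtain ⟨Q, hQ, hQA, hQF⟩ := hF.bertini {Y 0, Y 1} hA
  obtain ⟨Q', hQ', hQA', hQF'⟩ := hF.bertini ({Y 0, Y 1} ∪ Q.support) hA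
  have hadd : ∀ (R : G.Prm X →₀ ℝ) (P : G.Prm X),
      clR G (R + Finsupp.single P m) = clR G R + m • G.cl P := by
    intro R P
    unfold clR
    rw [Finsupp.sum_add_index' (fun _ => by simp) (fun _ _ _ => by rw [add_smul]),
      Finsupp.sum_single_index (by simp)]
  have hpos : ∀ (R : G.Prm X →₀ ℝ) (S : G.Prm X), (∀ P, 0 ≤ R P) →
      ∀ P, 0 ≤ (R + Finsupp.single S m) P := by
    intro R S hR P
    rw [Finsupp.add_apply, Finsupp.single_apply]
    split_ifs
    · exact add_nonneg (hR P) hm.le
    · simpa using hR P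
  have hsup : ∀ (R : G.Prm X →₀ ℝ) (S P : G.Prm X), P ∈ (R + Finsupp.single S m).support →
      P ∈ R.support ∨ P = S := by
    intro R S P h
    by_contra hcon
    push Not at hcon
    rw [Finsupp.mem_support_iff, Finsupp.add_apply, Finsupp.notMem_support_iff.mp hcon.1,
      Finsupp.single_apply, if_neg (fun h => hcon.2 h.symm)] at h
    exact h (add_zero 0)
  refine ⟨Q + Finsupp.single (Y 0) m, Q' + Finsupp.single (Y 1) m, hpos _ _ hQ, hpos _ _ hQ',
    ?_, by rw [hadd, hQA, ← hK 0], by rw [hadd, hQA', ← hK 1]⟩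
  intro P h h'
  rcases hsup _ _ _ h with h1 | h1 <;> rcases hsup _ _ _ h' with h2 | h2
  · exact hQF' P (Finset.mem_union_right _ h1) h2
  · exact hQF P (by rw [h2]; simp) h1
  · exact hQF' P (by rw [h1]; simp) h2
  · exact absurd (hY (h1.symm.trans h2)) (by decide)

/-- A divisor without the prime divisor `P` is non-negative on the ray of the contraction of
`P`. -/
theorem ray_nonneg {X X' : G.Var} (e : G.Step X X') {P : G.Prm X}
    (hQ : ∀ Q : G.Prm X, Q ≠ P → 0 ≤ G.ray e (G.cl Q)) {N : G.Prm X →₀ ℝ}
    (hN : ∀ Q, 0 ≤ N Q) (hP : P ∉ N.support) : 0 ≤ G.ray e (clR G N) := by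
  unfold clR
  rw [Finsupp.sum, map_sum]
  refine Finset.sum_nonneg fun Q hQs => ?_
  rw [map_smul, smul_eq_mul]
  refine mul_nonneg (hN Q) (hQ Q ?_)
  rintro rfl
  exact hP hQs

/-- The program of a pair with mobile log canonical class consists of flips. -/
theorem flip_of_mobile (hT : Textbook G) {X X' : G.Var} (e : G.Step X X') {Δ : G.Bd X}
    (neg : G.ray e (G.KB Δ) < 0) {N N' : G.Prm X →₀ ℝ} (hN : ∀ P, 0 ≤ N P)
    (hN' : ∀ P, 0 ≤ N' P) (hd : ∀ P, P ∈ N.support → P ∉ N'.support) (hK : clR G N = G.KB Δ)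
    (hK' : clR G N' = G.KB Δ) : G.Flip e := by
  by_contra hf
  obtain ⟨P, -, hQ⟩ := hT.div_prime e hf
  by_cases hP : P ∈ N.support
  · have := ray_nonneg e hQ hN' (hd P hP)
    rw [hK'] at this
    linarith
  · have := ray_nonneg e hQ hN hP
    rw [hK] at this
    linarith

theorem pushF_nonneg (hT : Textbook G) {X X' : G.Var} (e : G.Step X X') {N : G.Prm X →₀ ℝ}
    (hN : ∀ P, 0 ≤ N P) (P' : G.Prm X') : 0 ≤ pushF e N P' := by
  by_cases hP : P' ∈ (pushF e N).support
  · obtain ⟨P, -, hPP⟩ := exists_of_mem_support _ _ hP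
    rw [pushF_apply hT _ _ hPP]
    exact hN P
  · rw [Finsupp.notMem_support_iff.mp hP]

/-- A non-uniruled variety `V` that is (birationally) a subvariety of codimension two of `X`
survives along every program of `(X, Δ)`, if `K + Δ` is mobile, and the restriction of the log
canonical class decomposes. -/
theorem codim_two_decomposition (hT : Textbook G) (hM : MarkFacts G) {D : EllipticData G}
    (hF : EllipticFacts G D) (hP : EllipticPublished G) {V : G.Var} (hV : ¬ G.Uniruled V)
    {X X' : G.Var} {Δ : G.Bd X} {Δ' : G.Bd X'} (r : G.Run X Δ X' Δ')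
    (hfin : G.Nef (G.KB Δ') ∨ ∃ f : G.Fib X', G.AntiAmple f (G.KB Δ')) :
    ∀ (s : G.Mark V X) (N N' : G.Prm X →₀ ℝ), G.dim X = G.dim V + 2 → G.Lc X Δ →
      G.KB Δ ∈ G.Pseff X → (∀ P, 0 ≤ N P) → (∀ P, 0 ≤ N' P) →
      (∀ P, P ∈ N.support → P ∉ N'.support) → clR G N = G.KB Δ → clR G N' = G.KB Δ →
      ∃ P ∈ G.bNef V, ∃ E ∈ G.bEff V, G.res s (G.KB Δ) = P + E := by
  induction r with
  | refl X Δ =>
    intro s _ _ _ _ hps _ _ _ _ _
    rcases hfin with hn | ⟨f, hf⟩
    · exact ⟨_, hM.mark_nef s hn, 0, hM.bEff_zero V, by rw [add_zero]⟩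
    · exfalso
      obtain ⟨γ, hγ, hγ0, hγL⟩ := hT.fib_curve f hps
      exact absurd (hf γ hγ hγ0) (not_lt.mpr hγL)
  | @cons X X₁ X' Δ Δ' e neg r ih =>
    intro s N N' hdim hlc hps hN hN' hd hK hK'
    have hflip : G.Flip e := flip_of_mobile hT e neg hN hN' hd hK hK'
    have hloc : ∀ T, G.Comp e T → ¬ G.le (G.im s) T := by
      intro T hTc hle
      have h1 := hF.flip_dim e hflip hTc
      have h2 : G.sdim T ≤ G.sdim (G.im s) := by rw [hM.mark_dim]; omega
      have hST := hT.sub_eq hle h2
      apply hV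
      apply hM.mark_uni s
      rw [hST]
      exact hP.uniruled e hlc neg hTc
    obtain ⟨s', -, hres⟩ := hM.mark_step e s hloc
    obtain ⟨P, hPn, E, hE, heq⟩ := ih hfin s' (pushF e N) (pushF e N')
      (by rw [hT.step_dim e, hdim]) (hT.step_lc e hlc neg)
      (by rw [push_KB hT]; exact hT.step_pseff e hps)
      (pushF_nonneg hT e hN) (pushF_nonneg hT e hN')
      (by
        intro P' h1 h2
        obtain ⟨P, hPs, hPP⟩ := exists_of_mem_support _ _ h1
        obtain ⟨Q, hQs, hQQ⟩ := exists_of_mem_support _ _ h2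
        have := hT.step_inj e hPP hQQ
        subst this
        exact hd P hPs hQs)
      (by rw [push_clR hT, hK, push_KB hT]) (by rw [push_clR hT, hK', push_KB hT])
    have hd' := hres (G.KB Δ) neg.le
    rw [← push_KB hT] at hd'
    refine ⟨P, hPn, _, hM.bEff_add hE hd', ?_⟩
    rw [← add_assoc, ← heq]
    abel

/-- If Q1 holds for the varieties of elliptic type of dimension `dim V + 2`, then the canonical
class of `V` has a weak Zariski decomposition, if it is pseudo-effective. -/
theorem weakZariski_of_elliptic (hT : Textbook G) (hM : MarkFacts G) {D : EllipticData G}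
    (hF : EllipticFacts G D) (hP : EllipticPublished G) {V : G.Var} (hsm : G.Smooth V)
    (h1 : 1 ≤ G.dim V) (hK : G.K V ∈ G.Pseff V)
    (hQ : ∀ X : G.Var, G.dim X = G.dim V + 2 → EllipticType D X → G.Q1 X 0) :
    G.WeakZariski V := by
  have hV : ¬ G.Uniruled V := fun h => hM.uni_K hsm h hK
  obtain ⟨X, s, hX, -, hdim, hres⟩ := hF.model hsm hV h1
  obtain ⟨X', Δ', hrun, _, hfin⟩ := hQ X hdim hX
  obtain ⟨N, N', hN, hN', hd, hc, hc'⟩ := elliptic_mobile hF hX
  obtain ⟨P, hPn, E, hE, heq⟩ := codim_two_decomposition hT hM hF hP hV hrun hfin s N N' hdim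
    (hF.lc hX) (by rw [KB_zero]; exact elliptic_pseff hT hF hX) hN hN' hd (by rw [KB_zero, hc])
    (by rw [KB_zero, hc'])
  rw [KB_zero, hres] at heq
  exact ⟨P, hPn, E, hE, heq⟩

/-- **the main theorem** -/
theorem elliptic_main (hT : Textbook G) (hM : MarkFacts G) {D : EllipticData G}
    (hF : EllipticFacts G D) (hP : EllipticPublished G) (n : ℕ)
    (h : ∀ X : G.Var, 6 ≤ G.dim X → G.dim X ≤ n + 2 → EllipticType D X → G.Q1 X 0) :
    ∀ (X : G.Var) (Δ : G.Bd X), G.dim X ≤ n → G.Lc X Δ → G.Q1 X Δ := by
  intro X Δ hdim hlc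
  by_cases hps : G.KB Δ ∈ G.Pseff X
  · refine hP.reduction n ?_ X Δ hdim hlc hps
    intro V hsm hn hK
    by_cases h3 : G.dim V ≤ 3
    · exact hP.threefolds hsm h3 hK
    · exact weakZariski_of_elliptic hT hM hF hP hsm (by omega) hK
        fun Y hY hYD => h Y (by omega) (by omega) hYD
  · exact hP.mori X Δ hlc hps

end Pool.Agent.Helper40.LC
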